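import Mathlib

set_option autoImplicit false

namespace Pool.Agent.H.MP_4640da_an

open Finset ComplexConjugate
open scoped ComplexOrder

def PD {G : Type} [Group G] (φ : G → ℂ) : Prop :=
  ∀ (n : ℕ) (g : Fin n → G) (c : Fin n → ℂ), 0 ≤ ∑ i, ∑ j, c i * conj (c j) * φ ((g j)⁻¹ * g i)

def PA (G : Type) [Group G] : Set (G → ℂ) :=
  {φ | PD φ ∧ φ 1 = 1 ∧ ∀ (α : MulAut G) (g : G), φ (α g) = φ g}

variable {G : Type} [Group G] {φ : G → ℂ}

theorem PD.fin (h : PD φ) {ι : Type} [Fintype ι] (g : ι → G) (c : ι → ℂ) :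
    0 ≤ ∑ i, ∑ j, c i * conj (c j) * φ ((g j)⁻¹ * g i) := by
  have e := (Fintype.equivFin ι).symm
  refine (h _ (g ∘ e) (c ∘ e)).trans_eq ?_
  rw [← e.sum_comp]
  exact sum_congr rfl fun i _ => e.sum_comp fun j => c (e i) * conj (c j) * φ ((g j)⁻¹ * g (e i))

theorem quad (a d d' : ℂ) (h : ∀ s : ℂ, 0 ≤ a + s * conj s + conj s * d + s * d') :
    d.re ^ 2 + d.im ^ 2 ≤ a.re := by
  have h0 := (Complex.le_def.1 (h 0)).2
  have h1 := (Complex.le_def.1 (h 1)).2
  have h2 := (Complex.le_def.1 (h Complex.I)).2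
  have h3 := (Complex.le_def.1 (h (-d))).1
  simp at h0 h1 h2 h3
  have e1 : d'.im = -d.im := by linarith
  have e2 : d'.re = d.re := by linarith
  rw [e1, e2] at h3
  nlinarith

theorem PD.le_one (h : PD φ) (h1 : φ 1 = 1) (g : G) : (φ g).re ^ 2 + (φ g).im ^ 2 ≤ 1 :=
  quad 1 (φ g) (φ g⁻¹) fun s => (h 2 ![g, 1] ![1, s]).trans_eq (by
    simp [Fin.sum_univ_two, h1]; ring)

theorem PD.coset (h : PD φ) (h1 : φ 1 = 1) (n : G) (a : φ n = 1) (b : φ n⁻¹ = 1) (g : G) :
    φ (g * n) = φ g := by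
  have := quad 0 (φ (g * n) - φ g) (φ (n⁻¹ * g⁻¹) - φ g⁻¹) fun s =>
    (h 3 ![n, 1, g⁻¹] ![1, -1, s]).trans_eq (by simp [Fin.sum_univ_three, h1, a, b]; ring)
  rw [← sub_eq_zero]
  simp only [Complex.zero_re] at this
  apply Complex.ext
  · exact pow_eq_zero_iff two_ne_zero |>.1 (le_antisymm (by nlinarith) (sq_nonneg _))
  · exact pow_eq_zero_iff two_ne_zero |>.1 (le_antisymm (by nlinarith) (sq_nonneg _))

section
variable {ι : Type} [DecidableEq ι]

def sh (i : ι) (w : FreeGroup ι) : FreeGroup ι →* FreeGroup ι :=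
  FreeGroup.lift fun j => if j = i then .of i * w else .of j

theorem niel (i : ι) (w : FreeGroup ι) (hw : w ∈ Subgroup.closure (FreeGroup.of '' {i}ᶜ)) :
    ∃ α : MulAut (FreeGroup ι), α (.of i) = .of i * w := by
  have fx : ∀ v, sh i v w = w := fun v => by
    induction hw using Subgroup.closure_induction with
    | mem x hx => obtain ⟨j, hj, rfl⟩ := hx; simp [sh, show j ≠ i from hj]
    | one => simp
    | mul x y _ _ a b => rw [map_mul, a, b]
    | inv x _ a => rw [map_inv, a]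
  refine ⟨MonoidHom.toMulEquiv (sh i w) (sh i w⁻¹) ?_ ?_, by simp [sh]⟩ <;>
    refine FreeGroup.ext_hom _ _ fun j => ?_ <;> by_cases h : j = i
  · have := fx w⁻¹
    simp only [sh] at this
    simp [sh, h, this]
  · simp [sh, h]
  · have := fx w
    simp only [sh] at this
    simp [sh, h, this]
  · simp [sh, h]

theorem swp (i j : ι) : ∃ α : MulAut (FreeGroup ι), α (.of i) = .of j :=
  ⟨FreeGroup.freeGroupCongr (Equiv.swap i j), by simp⟩

end

abbrev Q (r : ℕ) := Multiplicative (Fin r → ZMod 2)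

def q (r : ℕ) : FreeGroup (Fin r) →* Q r := FreeGroup.lift fun i => .ofAdd (Pi.single i 1)

theorem q_char (r : ℕ) (α : FreeGroup (Fin r) →* FreeGroup (Fin r)) (g : FreeGroup (Fin r))
    (h : q r g = 1) : q r (α g) = 1 := by
  let L : (Fin r → ZMod 2) →ₗ[ZMod 2] (Fin r → ZMod 2) :=
    (Pi.basisFun (ZMod 2) (Fin r)).constr (ZMod 2) fun i => (q r (α (.of i))).toAdd
  have : (q r).comp α = (AddMonoidHom.toMultiplicative L.toAddMonoidHom).comp (q r) :=
    FreeGroup.ext_hom _ _ fun i => by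
      have : L (Pi.single i 1) = (q r (α (.of i))).toAdd := by
        rw [← Pi.basisFun_apply]; exact Module.Basis.constr_basis _ _ _ _
      simp [q] at this ⊢
      rw [this]; rfl
  have := DFunLike.congr_fun this g
  simpa [h] using this

theorem q_prim (r : ℕ) (i0 : Fin r) (a : Q r) (ha : a ≠ 1) :
    ∃ α : MulAut (FreeGroup (Fin r)), q r (α (.of i0)) = a := by
  obtain ⟨i, hi⟩ : ∃ i, a.toAdd i = 1 := by
    by_contra k
    push Not at k
    refine ha (Multiplicative.toAdd.injective (funext fun i => ?_))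
    have := k i
    change a.toAdd i = 0
    generalize a.toAdd i = z at this
    revert z
    decide
  have key : ∀ S : Finset (Fin r), i ∉ S → ∃ w ∈ Subgroup.closure (FreeGroup.of '' {i}ᶜ),
      (q r w).toAdd = ∑ j ∈ S, Pi.single j 1 := fun S => by
    induction S using Finset.induction_on with
    | empty => exact fun _ => ⟨1, one_mem _, by simp⟩
    | insert j S hj ih =>
      intro h
      rw [mem_insert, not_or] at h
      obtain ⟨w, w1, w2⟩ := ih h.2
      exact ⟨.of j * w, mul_mem (Subgroup.subset_closure ⟨j, Ne.symm h.1, rfl⟩) w1, by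
        rw [sum_insert hj, map_mul, toAdd_mul, w2]; simp [q]⟩
  obtain ⟨w, w1, w2⟩ := key ((univ.filter fun j => a.toAdd j = 1).erase i) (notMem_erase _ _)
  obtain ⟨α, hα⟩ := niel i w w1
  obtain ⟨β, hβ⟩ := swp i0 i
  refine ⟨α * β, Multiplicative.toAdd.injective ?_⟩
  rw [MulAut.mul_apply, hβ, hα, map_mul, toAdd_mul, w2,
    show (q r (.of i)).toAdd = Pi.single i 1 by simp [q],
    add_sum_erase _ (fun j => (Pi.single j 1 : Fin r → ZMod 2)) (by simpa using hi)]
  funext j
  simp only [Finset.sum_apply, Pi.single_apply, sum_ite_eq, mem_filter, mem_univ, true_and]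
  generalize a.toAdd j = z
  revert z
  decide

theorem fin_rank (r : ℕ) (i0 : Fin r) : ∃ τ ∈ (PA (FreeGroup (Fin r))).extremePoints ℝ,
    τ (.of i0) = -1 / (2 ^ r - 1) := by
  classical
  obtain ⟨N, hN⟩ : ∃ N : ℝ, N = 2 ^ r := ⟨_, rfl⟩
  have cN : (Fintype.card (Q r) : ℝ) = N := by simp [hN]
  have N2 : 2 ≤ N := by
    rw [hN]; simpa using pow_le_pow_right₀ (one_le_two (α := ℝ)) (Fin.pos i0)
  have N1 : (N : ℂ) - 1 ≠ 0 := by exact_mod_cast (by linarith : N - 1 ≠ 0)
  have q0 : q r (.of i0) ≠ 1 := fun h => by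
    have := congrFun (congrArg Multiplicative.toAdd h) i0
    simp [q] at this
  refine ⟨fun g => if q r g = 1 then 1 else -1 / (N - 1), ?_, by simp [q0, hN]⟩
  have low : ∀ φ ∈ PA (FreeGroup (Fin r)), (∀ g, q r g = 1 → φ g = 1) →
      (∀ g, q r g ≠ 1 → φ g = φ (.of i0)) ∧ 0 ≤ 1 + (N - 1) * φ (.of i0) := by
    rintro φ ⟨p1, p2, p3⟩ h
    have a : ∀ g, q r g ≠ 1 → φ g = φ (.of i0) := fun g hg => by
      obtain ⟨α, hα⟩ := q_prim r i0 _ hg
      rw [← p3 α (.of i0), ← p1.coset p2 ((α (.of i0))⁻¹ * g) (h _ (by simp [hα]))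
        (h _ (by simp [hα])) (α (.of i0)), mul_inv_cancel_left]
    have s : ∀ a : Q r, ∃ g, q r g = a := fun a => by
      by_cases k : a = 1
      · exact ⟨1, by simp [k]⟩
      · obtain ⟨α, hα⟩ := q_prim r i0 _ k
        exact ⟨_, hα⟩
    choose g hg using s
    refine ⟨a, ?_⟩
    have b := p1.fin g fun _ => 1
    have c : ∀ i, ∑ j, (1 : ℂ) * conj 1 * φ ((g j)⁻¹ * g i) = 1 + (N - 1) * φ (.of i0) := fun i => by
      rw [← add_sum_erase _ _ (mem_univ i), sum_congr rfl (g := fun _ => φ (.of i0)) fun j hj => by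
        rw [a _ (by simpa [hg, inv_mul_eq_one] using (mem_erase.1 hj).1)]; simp]
      rw [sum_const, card_erase_of_mem (mem_univ i), card_univ, nsmul_eq_mul,
        Nat.cast_sub Fintype.card_pos, ← cN]
      simp [p2]
    simp only [c, sum_const, card_univ, nsmul_eq_mul] at b
    have k : (0 : ℂ) ≤ (N⁻¹ : ℝ) := by exact_mod_cast inv_nonneg.2 (by linarith : 0 ≤ N)
    have l : ((N⁻¹ : ℝ) : ℂ) * Fintype.card (Q r) = 1 := by
      have : N⁻¹ * Fintype.card (Q r) = 1 := by rw [cN, inv_mul_cancel₀ (by linarith)]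
      exact_mod_cast this
    have := mul_nonneg k b
    rwa [← mul_assoc, l, one_mul] at this
  refine mem_extremePoints_iff_left.2 ⟨⟨fun n g c => ?_, by simp, fun α g => ?_⟩, ?_⟩
  · obtain ⟨S, hS⟩ : ∃ S : Q r → ℂ, S = fun a => ∑ i, if q r (g i) = a then c i else 0 := ⟨_, rfl⟩
    have e1 : ∑ a, S a = ∑ i, c i := by rw [hS, sum_comm]; simp
    have e2 : ∑ a, S a * conj (S a) =
        ∑ i, ∑ j, if q r ((g j)⁻¹ * g i) = 1 then c i * conj (c j) else 0 := by
      simp only [hS, map_sum, sum_mul_sum]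
      rw [sum_comm]
      refine sum_congr rfl fun i _ => ?_
      rw [sum_comm]
      refine sum_congr rfl fun j _ => ?_
      rw [sum_eq_single (q r (g i)) (fun b _ hb => by simp [hb.symm]) (by simp)]
      simp only [map_mul, map_inv, inv_mul_eq_one, if_true]
      split_ifs <;> simp
    have e3 : ∑ i, ∑ j, c i * conj (c j) * (if q r ((g j)⁻¹ * g i) = 1 then 1 else -1 / ((N : ℂ) - 1)) =
        (N * ∑ a, S a * conj (S a) - (∑ a, S a) * conj (∑ a, S a)) / (N - 1) := by
      rw [e1, e2, map_sum, sum_mul_sum]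
      simp only [mul_sum, ← sum_sub_distrib, sum_div]
      refine sum_congr rfl fun i _ => sum_congr rfl fun j _ => ?_
      split_ifs
      · field_simp
      · field_simp; ring
    rw [e3]
    simp only [Complex.mul_conj, Complex.normSq_eq_norm_sq]
    have a := sq_sum_le_card_mul_sum_sq (s := univ) (f := fun a => ‖S a‖)
    have b := pow_le_pow_left₀ (norm_nonneg _) (norm_sum_le univ S) 2
    rw [card_univ, cN] at a
    exact_mod_cast div_nonneg (sub_nonneg.2 (b.trans a)) (by linarith : 0 ≤ N - 1)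
  · have : q r (α g) = 1 ↔ q r g = 1 :=
      ⟨fun h => by simpa using q_char r α.symm.toMonoidHom _ h, q_char r α.toMonoidHom g⟩
    simp only [this]
  · rintro φ hφ ψ hψ ⟨a, b, a0, b0, ab, h⟩
    have h' := fun g => congrFun h g
    simp only [Pi.add_apply, Pi.smul_apply, Complex.real_smul] at h'
    have one : ∀ g, q r g = 1 → φ g = 1 ∧ ψ g = 1 := fun g hg => by
      have e := congrArg Complex.re (h' g)
      have p := hφ.1.le_one hφ.2.1 g
      have s := hψ.1.le_one hψ.2.1 g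
      simp [hg] at e
      have p' : (φ g).re ≤ 1 := by nlinarith
      have s' : (ψ g).re ≤ 1 := by nlinarith
      have p1 : (φ g).re = 1 := by nlinarith
      have s1 : (ψ g).re = 1 := by nlinarith
      exact ⟨Complex.ext p1 (by simp; nlinarith), Complex.ext s1 (by simp; nlinarith)⟩
    obtain ⟨p1, p2⟩ := low φ hφ fun g hg => (one g hg).1
    obtain ⟨-, s2⟩ := low ψ hψ fun g hg => (one g hg).2
    have e := h' (.of i0)
    rw [if_neg q0, eq_div_iff N1] at e
    have z : (a : ℂ) * (1 + (N - 1) * φ (.of i0)) + b * (1 + (N - 1) * ψ (.of i0)) = 0 := by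
      have : (a : ℂ) + b = 1 := by exact_mod_cast ab
      linear_combination this + e
    have a1 : (0 : ℂ) < a := by exact_mod_cast a0
    have b1 : (0 : ℂ) < b := by exact_mod_cast b0
    have y := (add_eq_zero_iff_of_nonneg (mul_nonneg a1.le p2) (mul_nonneg b1.le s2)).1 z
    have x := (mul_eq_zero.1 y.1).resolve_left a1.ne'
    funext g
    split_ifs with k
    · exact (one g k).1
    · rw [p1 g k, eq_div_iff N1]
      linear_combination x

theorem fresh {ι : Type} [Infinite ι] {n : ℕ} (g : Fin n → FreeGroup ι) (m : ℕ) :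
    ∃ k : Fin m → ι, Function.Injective k ∧
      ∀ a i, g i ∈ Subgroup.closure (FreeGroup.of '' {k a}ᶜ) := by
  classical
  have : ∀ x : FreeGroup ι, ∃ S : Finset ι, ∀ k ∉ S, x ∈ Subgroup.closure (FreeGroup.of '' {k}ᶜ) :=
    fun x => by
      induction x using FreeGroup.induction_on with
      | C1 => exact ⟨∅, fun _ _ => one_mem _⟩
      | of j => exact ⟨{j}, fun k hk => Subgroup.subset_closure ⟨j, fun h => hk (mem_singleton.2 (Eq.symm h)), rfl⟩⟩
      | inv_of j h => exact h.imp fun S hS k hk => inv_mem (hS k hk)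
      | mul x y a b =>
        obtain ⟨S, a⟩ := a
        obtain ⟨T, b⟩ := b
        exact ⟨S ∪ T, fun k hk => mul_mem (a k fun h => hk (mem_union_left _ h))
          (b k fun h => hk (mem_union_right _ h))⟩
  choose S hS using this
  have i := (univ.biUnion fun i => S (g i)).finite_toSet.infinite_compl
  refine ⟨fun a => i.natEmbedding _ a, fun a b h => Fin.ext ((i.natEmbedding _).injective
    (Subtype.ext h)), fun a j => hS _ _ fun h => (i.natEmbedding _ a).2 ?_⟩
  exact mem_coe.2 (mem_biUnion.2 ⟨j, mem_univ _, h⟩)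

theorem inf_rank {ι : Type} [Infinite ι] (i0 : ι) (τ : FreeGroup ι → ℂ)
    (h : τ ∈ (PA (FreeGroup ι)).extremePoints ℝ) (h1 : τ ≠ fun _ => 1) : τ (.of i0) = 0 := by
  classical
  obtain ⟨⟨p1, p2, p3⟩, ex⟩ := mem_extremePoints_iff_left.1 h
  obtain ⟨c, hc⟩ : ∃ c, c = τ (.of i0) := ⟨_, rfl⟩
  have t1 : ∀ k w, w ∈ Subgroup.closure (FreeGroup.of '' {k}ᶜ) →
      τ ((FreeGroup.of k)⁻¹ * w) = c ∧ τ (w⁻¹ * .of k) = c := fun k w hw => by
    obtain ⟨β, hβ⟩ := swp i0 k
    obtain ⟨α, hα⟩ := niel k w⁻¹ (inv_mem hw)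
    constructor
    · have e : (FreeGroup.lift fun j : ι => (FreeGroup.of j)⁻¹).comp
          (FreeGroup.lift fun j => (FreeGroup.of j)⁻¹) = MonoidHom.id _ :=
        FreeGroup.ext_hom _ _ fun j => by simp
      have := p3 (MulAut.conj w⁻¹ * α * MonoidHom.toMulEquiv _ _ e e * β) (.of i0)
      simpa [hβ, hα, hc, mul_assoc] using this
    · have := p3 (MulAut.conj w⁻¹ * α * β) (.of i0)
      simpa [hβ, hα, hc, mul_assoc] using this
  have t2 : ∀ (n : ℕ) (g : Fin n → FreeGroup ι) (d : Fin n → ℂ) (s : ℂ),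
      0 ≤ ∑ i, ∑ j, d i * conj (d j) * τ ((g j)⁻¹ * g i) +
        c * (conj s * ∑ i, d i + s * conj (∑ i, d i) + s * conj s) := fun n g d s => by
    have l := (tendsto_one_div_add_atTop_nhds_zero_nat (𝕜 := ℂ)).const_mul (s * conj s * (1 - c))
      |>.const_add (∑ i, ∑ j, d i * conj (d j) * τ ((g j)⁻¹ * g i) +
        c * (conj s * ∑ i, d i + s * conj (∑ i, d i) + s * conj s))
    rw [mul_zero, add_zero] at l
    refine ge_of_tendsto' l fun m => ?_
    obtain ⟨k, k1, k2⟩ := fresh g (m + 1)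
    have m0 : (m : ℂ) + 1 ≠ 0 := by exact_mod_cast m.succ_ne_zero
    refine (p1.fin (Sum.elim g fun a => .of (k a)) (Sum.elim d fun _ => s / (m + 1))).trans_eq ?_
    have e : ∀ a, ∑ b, τ ((FreeGroup.of (k b))⁻¹ * .of (k a)) = 1 + m * c := fun a => by
      rw [← add_sum_erase _ _ (mem_univ a), sum_congr rfl (g := fun _ => c) fun b hb =>
        (t1 _ _ (Subgroup.subset_closure ⟨k a, fun h => (mem_erase.1 hb).1 (k1 h).symm, rfl⟩)).1]
      simp [p2]
    simp only [Fintype.sum_sum_type, Sum.elim_inl, Sum.elim_inr, fun a i => (t1 _ _ (k2 a i)).1,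
      fun a i => (t1 _ _ (k2 a i)).2, ← mul_sum, e, sum_add_distrib, ← sum_mul, sum_const, card_univ,
      Fintype.card_fin, nsmul_eq_mul, map_sum, map_div₀, map_add, map_natCast, map_one]
    push_cast
    field_simp
    ring
  have t3 : PD fun g => τ g - c := fun n g d => (t2 n g d (-∑ i, d i)).trans_eq (by
    simp only [mul_sub, sum_sub_distrib, ← sum_mul, ← mul_sum, map_neg, map_sum]
    ring)
  have c0 : 0 ≤ c := by simpa using t2 0 ![] ![] 1
  obtain ⟨t, rfl⟩ : ∃ t : ℝ, c = t := ⟨c.re, Complex.ext rfl (Complex.le_def.1 c0).2.symm⟩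
  have t0 : 0 ≤ t := by exact_mod_cast c0
  have t4 : t ≤ 1 := by
    have := p1.le_one p2 (.of i0)
    rw [← hc] at this
    simp at this
    exact (abs_le.1 this).2
  rw [← hc]
  by_contra z
  have t5 : 0 < t := t0.lt_of_ne fun e => z (by simp [← e])
  refine h1 ?_
  obtain rfl | t6 := t4.eq_or_lt
  · funext g
    have := quad 0 (τ g - 1) (τ g⁻¹ - 1) fun s =>
      (add_nonneg (t3 2 ![g, 1] ![1, s]) (mul_star_self_nonneg s)).trans_eq (by
        simp [Fin.sum_univ_two, p2]; ring)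
    rw [← sub_eq_zero]
    simp only [Complex.zero_re] at this
    apply Complex.ext
    · exact pow_eq_zero_iff two_ne_zero |>.1 (le_antisymm (by nlinarith) (sq_nonneg _))
    · exact pow_eq_zero_iff two_ne_zero |>.1 (le_antisymm (by nlinarith) (sq_nonneg _))
  have u : (1 : ℂ) - t ≠ 0 := by exact_mod_cast (by linarith : 1 - t ≠ 0)
  refine (ex (fun _ => 1) ⟨fun n g d => ?_, rfl, fun _ _ => rfl⟩ (fun g => (τ g - t) / (1 - t))
    ⟨fun n g d => ?_, by simp [p2, u], fun α g => by simp only [p3]⟩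
    ⟨t, 1 - t, t5, by linarith, by ring, funext fun g => ?_⟩).symm
  · simp only [mul_one, ← mul_sum, ← sum_mul, ← map_sum]
    exact mul_star_self_nonneg _
  · have k : (0 : ℂ) ≤ ((1 - t)⁻¹ : ℝ) := by exact_mod_cast inv_nonneg.2 (by linarith : 0 ≤ 1 - t)
    refine (mul_nonneg k (t3 n g d)).trans_eq ?_
    simp only [mul_sum]
    push_cast
    exact sum_congr rfl fun _ _ => sum_congr rfl fun _ _ => by ring
  · simp only [Pi.add_apply, Pi.smul_apply, Complex.real_smul]
    push_cast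
    field_simp
    ring

end Pool.Agent.H.MP_4640da_an
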